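import Pool.Agent.Helper98.EX.Stmts2

/-!
# LAGL: arrival of the last particles
-/

namespace Pool.Agent.Helper98.EX

open Finset

variable {N : ℕ}

theorem lagl_adm {r l : ℕ → ℝ} {p0 q0 : ℝ} (h0 : 0 < q0) (h1 : q0 < p0) (h2 : p0 ≤ 1)
    (h : NN N r l p0 q0) : Adm N r l := by
  intro x h3 h4
  obtain ⟨a, b, c, d⟩ := h x h3 h4
  exact ⟨by linarith, b, c, by linarith⟩

theorem lagl_inc_ht (k x : ℕ) : Inc k (fun ξ : Cfg N => (ht ξ x : ℝ)) := by
  intro η ξ _ _ h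
  have h1 := h x
  rw [add_zero] at h1
  show ((ht η x : ℕ) : ℝ) ≤ ((ht ξ x : ℕ) : ℝ)
  exact_mod_cast h1

theorem lagl_inc_ind (k n y : ℕ) : Inc k (ind {ζ : Cfg N | n ≤ ht ζ y}) := by
  apply pr_Inc_ind
  intro η ξ _ _ h h1
  have h2 := h y
  have h3 : n ≤ ht η y := h1
  show n ≤ ht ξ y
  omega

theorem lagl_step_ht {r l : ℕ → ℝ} (hA : Adm N r l) (S : Finset ℕ) (x : ℕ) (η : Cfg N) :
    stp r l S (fun ξ : Cfg N => (ht ξ x : ℝ)) η ≤ ht η x + 1 / (2 * N) := by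
  have h1 : ∑ y ∈ full N, (r y * ((ht (RmS S y η) x : ℝ) - ht η x) +
      l y * ((ht (LmS S y η) x : ℝ) - ht η x)) ≤ ∑ y ∈ full N, (if y = x then (1 : ℝ) else 0) := by
    apply Finset.sum_le_sum
    intro y hy
    rw [full, Finset.mem_Ico] at hy
    obtain ⟨a, b, c, d⟩ := hA y hy.1 hy.2
    have hL : (ht (LmS S y η) x : ℝ) - ht η x ≤ 0 := by
      unfold LmS
      split_ifs
      · have h2 := ht_Lm_le η y x
        have h3 : (ht (Lm y η) x : ℝ) ≤ ht η x := by exact_mod_cast h2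
        linarith
      · simp
    have hL' := mul_nonpos_of_nonneg_of_nonpos c hL
    by_cases hyx : y = x
    · rw [if_pos hyx]
      have hR : (ht (RmS S y η) x : ℝ) - ht η x ≤ 1 := by
        unfold RmS
        split_ifs
        · have h2 := ht_Rm_le η y x
          have h3 : ((ht (Rm y η) x : ℕ) : ℝ) ≤ ht η x + 1 := by exact_mod_cast h2
          linarith
        · simp
      have : r y * ((ht (RmS S y η) x : ℝ) - ht η x) ≤ 1 := by
        calc r y * ((ht (RmS S y η) x : ℝ) - ht η x) ≤ r y * 1 :=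
              mul_le_mul_of_nonneg_left hR a.le
          _ ≤ 1 := by linarith
      linarith
    · rw [if_neg hyx]
      have h2 : ht (RmS S y η) x = ht η x := by
        unfold RmS
        split_ifs
        · exact ht_Rm_ne η (Ne.symm hyx)
        · rfl
      rw [h2]
      linarith
  have h2 : ∑ y ∈ full N, (if y = x then (1 : ℝ) else 0) ≤ 1 := by
    rw [Finset.sum_ite_eq']
    split_ifs <;> norm_num
  have h3 := div_le_div_of_nonneg_right (h1.trans h2) (by positivity : (0 : ℝ) ≤ 2 * N)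
  unfold stp
  linarith

theorem lagl_ev_ht {r l : ℕ → ℝ} (hA : Adm N r l) (σ : ℕ → Finset ℕ) (t x : ℕ) (η : Cfg N) :
    ev r l σ t (fun ξ : Cfg N => (ht ξ x : ℝ)) η ≤ ht η x + t / (2 * N) := by
  induction t generalizing σ η with
  | zero => simp
  | succ t ih =>
    rw [ev_succ]
    have h1 : stp r l (σ 0) (ev r l (fun i => σ (i + 1)) t (fun ξ : Cfg N => (ht ξ x : ℝ))) η ≤
        stp r l (σ 0) (fun ξ : Cfg N => (ht ξ x : ℝ) + t / (2 * N)) η :=
      stp_mono hA (fun ξ => ih _ ξ) η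
    refine h1.trans ?_
    rw [stp_add r l (σ 0) (fun ξ : Cfg N => (ht ξ x : ℝ)) (fun _ => (t : ℝ) / (2 * N)), stp_const]
    have h2 := lagl_step_ht hA (σ 0) x η
    push_cast
    rw [add_div]
    linarith

theorem lagl_ev_idle (r l : ℕ → ℝ) (m : ℕ) (f : Cfg N → ℝ) :
    ev r l (fun _ => (∅ : Finset ℕ)) m f = f := by
  induction m with
  | zero => rfl
  | succ m ih =>
    rw [ev_succ, ih]
    funext η
    rw [stp_open]
    simp

/-- gluing the phases -/
theorem lagl_chain {r l : ℕ → ℝ} (hA : Adm N r l) (n : ℕ) (D zz aj : ℕ → ℕ) (e : ℝ) (he : 0 ≤ e)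
    (J : ℕ) (hph : ∀ j < J, ∃ σ : ℕ → Finset ℕ, (∀ i, σ i ⊆ Finset.Ico 1 (zz j)) ∧
      ∀ ξ : Cfg N, ht ξ 0 = n → ht ξ (aj j) = n →
        pr r l σ (D j) {ζ | ht ζ (aj (j + 1)) < n} ξ ≤ e) :
    ∃ σ : ℕ → Finset ℕ, (∀ j < J, ∀ i, ∑ q ∈ Finset.range j, D q ≤ i →
        i < ∑ q ∈ Finset.range (j + 1), D q → σ i ⊆ Finset.Ico 1 (zz j)) ∧
      (∀ i, ∑ q ∈ Finset.range J, D q ≤ i → σ i = ∅) ∧
      ∀ ξ : Cfg N, ht ξ 0 = n → ht ξ (aj 0) = n →
        pr r l σ (∑ q ∈ Finset.range J, D q) {ζ | ht ζ (aj J) < n} ξ ≤ J * e := by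
  induction J with
  | zero =>
    refine ⟨fun _ => ∅, fun j hj => absurd hj (by omega), fun _ _ => rfl, ?_⟩
    intro ξ _ h2
    simp only [Finset.range_zero, Finset.sum_empty, Nat.cast_zero, zero_mul]
    unfold pr
    rw [lagl_ev_idle, ind_of_not_mem]
    simp [h2]
  | succ J ih =>
    obtain ⟨σ1, h1, h2, h3⟩ := ih (fun j hj => hph j (by omega))
    obtain ⟨σ2, k1, k2⟩ := hph J (by omega)
    have hS : ∑ q ∈ Finset.range (J + 1), D q = ∑ q ∈ Finset.range J, D q + D J :=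
      Finset.sum_range_succ _ _
    refine ⟨fun i => if i < ∑ q ∈ Finset.range J, D q then σ1 i else
      if i < ∑ q ∈ Finset.range (J + 1), D q then σ2 (i - ∑ q ∈ Finset.range J, D q) else ∅,
      ?_, ?_, ?_⟩
    · intro j hj i hi1 hi2
      dsimp only
      rcases Nat.lt_succ_iff_lt_or_eq.1 hj with hj' | hj'
      · have hle : ∑ q ∈ Finset.range (j + 1), D q ≤ ∑ q ∈ Finset.range J, D q :=
          Finset.sum_le_sum_of_subset (Finset.range_mono (by omega))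
        rw [if_pos (by omega)]
        exact h1 j hj' i hi1 hi2
      · subst hj'
        rw [if_neg (by omega), if_pos hi2]
        exact k1 _
    · intro i hi
      dsimp only
      rw [if_neg (by omega), if_neg (by omega)]
    · intro ξ x1 x2
      have e1 : pr r l (fun i => if i < ∑ q ∈ Finset.range J, D q then σ1 i else
          if i < ∑ q ∈ Finset.range (J + 1), D q then σ2 (i - ∑ q ∈ Finset.range J, D q) else ∅)
          (∑ q ∈ Finset.range (J + 1), D q) {ζ | ht ζ (aj (J + 1)) < n} ξ =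
          pr r l (cat (∑ q ∈ Finset.range J, D q) σ1 σ2) (∑ q ∈ Finset.range J, D q + D J)
            ({ζ | ht ζ (aj (J + 1)) < n}ᶜ)ᶜ ξ := by
        unfold pr
        rw [compl_compl, ← hS]
        rw [ev_congr (r := r) (l := l) (m := ∑ q ∈ Finset.range (J + 1), D q)
          (σ' := cat (∑ q ∈ Finset.range J, D q) σ1 σ2)]
        intro i hi
        unfold cat
        by_cases hi' : i < ∑ q ∈ Finset.range J, D q
        · rw [if_pos hi', if_pos hi']
        · rw [if_neg hi', if_neg hi', if_pos hi]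
      rw [e1]
      have e2 : ((J + 1 : ℕ) : ℝ) * e = J * e + e := by push_cast; ring
      rw [e2]
      apply pr_cat_fail hA σ1 σ2 _ _ (k := n) (A := {ζ | ht ζ (aj J) < n}ᶜ) x1
      · rw [compl_compl]
        exact h3 ξ x1 x2
      · exact he
      · intro ζ y1 y2
        rw [compl_compl]
        apply k2 ζ y1
        have y3 : ¬ ht ζ (aj J) < n := y2
        have y4 := ht_anti ζ (Nat.zero_le (aj J))
        omega

/-- the last `n` particles follow a moving wall -/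
theorem lagl_core (hCENS : ST_CENS) (hRATE : ST_RATE) (hWALL : ST_WALL) {r l l' : ℕ → ℝ}
    {k n J s0 : ℕ} (hA : Adm N r l) (hA' : Adm N r l') (hll : ∀ x, 1 ≤ x → x < N → l x ≤ l' x)
    (hkN : k ≤ N) (hnk : n ≤ k) (hJ : 1 ≤ J) (D zz aj : ℕ → ℕ) (e e1 : ℝ) (he : 0 ≤ e)
    (hzz : Monotone zz) (hzN : ∀ j < J, zz j ≤ N) (ha0 : aj 0 = 0) (hn0 : n ≤ zz 0)
    (haJ : aj J ≤ zz (J - 1))
    (hph : ∀ j < J, ∃ σ : ℕ → Finset ℕ, (∀ i, σ i ⊆ Finset.Ico 1 (zz j)) ∧
      ∀ ξ : Cfg N, ht ξ 0 = n → ht ξ (aj j) = n →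
        pr r l' σ (D j) {ζ | ht ζ (aj (j + 1)) < n} ξ ≤ e)
    (herr : ∀ j < J, ∀ i, ∑ q ∈ Finset.range j, D q ≤ i → i ≤ ∑ q ∈ Finset.range J, D q →
      pr r l (fun _ => full N) (s0 + i) {ζ | ht ζ (zz j) < k - n} (bot N k) ≤ e1) :
    pr r l (fun _ => full N) (s0 + ∑ q ∈ Finset.range J, D q) {ζ | ht ζ (aj J) < k} (bot N k) ≤
      ((∑ q ∈ Finset.range J, D q : ℕ) + 1) * e1 + J * e := by
  set S : ℕ → ℕ := fun j => ∑ q ∈ Finset.range j, D q with hS
  have Smono : Monotone S := fun a b hab =>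
    Finset.sum_le_sum_of_subset (Finset.range_mono hab)
  set M : ℕ := S J with hM
  let blk : ℕ → ℕ := fun i => Nat.findGreatest (fun j => S j ≤ i) (J - 1)
  have blk1 : ∀ i, S (blk i) ≤ i := by
    intro i
    apply Nat.findGreatest_spec (P := fun j => S j ≤ i) (Nat.zero_le (J - 1))
    simp [hS]
  have blk2 : ∀ i, blk i ≤ J - 1 := fun i => Nat.findGreatest_le _
  have blk3 : ∀ i, blk i ≤ blk (i + 1) := by
    intro i
    apply Nat.le_findGreatest (blk2 i)
    have := blk1 i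
    omega
  have blk4 : ∀ i, i < M → i < S (blk i + 1) := by
    intro i hi
    by_contra hcon
    have hc : S (blk i + 1) ≤ i := not_lt.1 hcon
    by_cases hb : blk i + 1 ≤ J - 1
    · have := Nat.le_findGreatest (P := fun j => S j ≤ i) hb hc
      have : blk i + 1 ≤ blk i := this
      omega
    · have hb' : blk i + 1 = J := by have := blk2 i; omega
      rw [hb'] at hc
      omega
  have blk5 : blk M = J - 1 := by
    apply le_antisymm (blk2 M)
    apply Nat.le_findGreatest le_rfl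
    exact Smono (by omega)
  let Z : ℕ → ℕ := fun i => zz (blk i)
  have Z1 : ∀ i, Z i ≤ Z (i + 1) := fun i => hzz (blk3 i)
  have Z2 : ∀ i, Z i ≤ N := fun i => hzN _ (by have := blk2 i; omega)
  obtain ⟨σ, s1, s2, s3⟩ := lagl_chain hA' n D zz aj e he J hph
  have s4 : ∀ i, σ i ⊆ Finset.Ico 1 (Z i) := by
    intro i
    by_cases hi : i < M
    · exact s1 (blk i) (by have := blk2 i; omega) i (blk1 i) (blk4 i hi)
    · rw [s2 i (not_lt.1 hi)]
      exact Finset.empty_subset _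
  have hnN : n ≤ N := hnk.trans hkN
  -- the comparison system
  have comp : pr r l (fun i => Finset.Ico 1 (Z i)) M {ζ | ht ζ (aj J) < n} (bot N n) ≤ J * e := by
    have c1 := hCENS N n r l (fun i => Finset.Ico 1 (Z i)) σ M (ind {ζ : Cfg N | n ≤ ht ζ (aj J)})
      hnN hA s4 (lagl_inc_ind n n (aj J))
    have c2 := hRATE N n r l l' σ M (ind {ζ : Cfg N | n ≤ ht ζ (aj J)}) (bot N n) hA hA' hll
      (lagl_inc_ind n n (aj J)) (ht_bot_zero hnN)
    have c3 := s3 (bot N n) (ht_bot_zero hnN) (by rw [ha0]; exact ht_bot_zero hnN)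
    have c4 : ({ζ : Cfg N | ht ζ (aj J) < n} : Set (Cfg N)) = {ζ | n ≤ ht ζ (aj J)}ᶜ := by
      ext ζ; simp
    rw [c4, pr_compl] at c3 ⊢
    unfold pr at c3 ⊢
    linarith
  -- pointwise comparison after the time `s0`
  have point : ∀ η : Cfg N, ht η 0 = k →
      pr r l (fun _ => full N) M {ζ | ht ζ (aj J) < k} η ≤
        (ind {ζ : Cfg N | ht ζ (Z 0) < k - n} η + J * e) +
        ∑ i ∈ Finset.Ico 1 (M + 1), pr r l (fun _ => full N) i {ζ | ht ζ (Z i) < k - n} η := by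
    intro η hη
    have hsum : 0 ≤ ∑ i ∈ Finset.Ico 1 (M + 1),
        pr r l (fun _ => full N) i {ζ : Cfg N | ht ζ (Z i) < k - n} η :=
      Finset.sum_nonneg fun i _ => pr_nonneg hA _ _ _ _
    by_cases hg : η ∈ {ζ : Cfg N | ht ζ (Z 0) < k - n}
    · rw [ind_of_mem hg]
      have := pr_le_one hA (fun _ => full N) M {ζ : Cfg N | ht ζ (aj J) < k} η
      have : 0 ≤ (J : ℝ) * e := by positivity
      linarith
    · rw [ind_of_not_mem hg, zero_add]
      have hg' : k - n ≤ ht η (Z 0) := not_lt.1 hg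
      have hZ0 : n ≤ Z 0 := hn0.trans (hzz (Nat.zero_le _))
      have w := hWALL N k n r l Z M (aj J) η (bot N n) hA hnk hη (ht_bot_zero hnN) Z1 Z2
        (by
          intro x hx
          rw [ht_bot hnN]
          by_cases hxn : n ≤ x
          · have := ht_anti η hx
            omega
          · have := ht_le_sub η (Nat.zero_le x)
            omega)
        (by rw [ht_bot hnN]; omega)
        (by
          show aj J ≤ zz (blk M)
          rw [blk5]; exact haJ)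
      linarith
  -- integrate over the state at time `s0`
  have tot : pr r l (fun _ => full N) (s0 + M) {ζ | ht ζ (aj J) < k} (bot N k) ≤
      (pr r l (fun _ => full N) s0 {ζ | ht ζ (Z 0) < k - n} (bot N k) + J * e) +
      ∑ i ∈ Finset.Ico 1 (M + 1),
        pr r l (fun _ => full N) (s0 + i) {ζ | ht ζ (Z i) < k - n} (bot N k) := by
    have t0 : ∀ (i : ℕ) (A : Set (Cfg N)), pr r l (fun _ => full N) (s0 + i) A (bot N k) =
        ev r l (fun _ => full N) s0 (pr r l (fun _ => full N) i A) (bot N k) := by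
      intro i A
      have : pr r l (fun _ => full N) (s0 + i) A (bot N k) =
          ev r l (fun _ => full N) (s0 + i) (ind A) (bot N k) := rfl
      rw [this, ev_add]
      rfl
    rw [t0 M]
    have t1 := ev_mono_sector hA (k := k) point (fun _ => full N) s0 (ht_bot_zero hkN)
    refine t1.trans (le_of_eq ?_)
    rw [ev_add_fun (fun _ => full N) s0
      (fun η : Cfg N => ind {ζ : Cfg N | ht ζ (Z 0) < k - n} η + J * e)
      (fun η : Cfg N => ∑ i ∈ Finset.Ico 1 (M + 1),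
        pr r l (fun _ => full N) i {ζ | ht ζ (Z i) < k - n} η),
      ev_add_fun (fun _ => full N) s0 (ind {ζ : Cfg N | ht ζ (Z 0) < k - n})
      (fun _ => (J : ℝ) * e), ev_const, ev_sum]
    congr 1
    apply Finset.sum_congr rfl
    intro i _
    rw [t0 i]
  have b0 : pr r l (fun _ => full N) s0 {ζ | ht ζ (Z 0) < k - n} (bot N k) ≤ e1 := by
    have := herr (blk 0) (by have := blk2 0; omega) 0 (blk1 0) (Nat.zero_le _)
    simpa using this
  have b1 : ∑ i ∈ Finset.Ico 1 (M + 1),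
      pr r l (fun _ => full N) (s0 + i) {ζ | ht ζ (Z i) < k - n} (bot N k) ≤ M * e1 := by
    have : ∑ i ∈ Finset.Ico 1 (M + 1),
        pr r l (fun _ => full N) (s0 + i) {ζ | ht ζ (Z i) < k - n} (bot N k) ≤
        ∑ i ∈ Finset.Ico 1 (M + 1), e1 := by
      apply Finset.sum_le_sum
      intro i hi
      rw [Finset.mem_Ico] at hi
      exact herr (blk i) (by have := blk2 i; omega) i (blk1 i) (by show i ≤ M; omega)
    refine this.trans (le_of_eq ?_)
    rw [Finset.sum_const, Nat.card_Ico, nsmul_eq_mul]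
    simp
  have fin : ((M : ℝ) + 1) * e1 = e1 + M * e1 := by ring
  rw [fin]
  linarith

/-! ### heights at intermediate times -/

theorem lagl_mono (hTIME : ST_TIME) {r l : ℕ → ℝ} {k : ℕ} (hA : Adm N r l) (hk : k ≤ N)
    {s t : ℕ} (hst : s ≤ t) (x : ℕ) :
    ev r l (fun _ => full N) s (fun ξ : Cfg N => (ht ξ x : ℝ)) (bot N k) ≤
      ev r l (fun _ => full N) t (fun ξ : Cfg N => (ht ξ x : ℝ)) (bot N k) :=
  hTIME N k r l s t _ hk hA (lagl_inc_ht k x) hst

theorem lagl_low (hTIME : ST_TIME) {r l : ℕ → ℝ} {δ C : ℝ} {k n g J m1 j t : ℕ}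
    (hL : ∀ z z' s : ℕ, z ≤ z' → z' < N → δ / 4 * N ≤ (s : ℝ) / (2 * N) → s ≤ m1 →
      ev r l (fun _ => full N) s (fun ξ => (ht ξ z : ℝ)) (bot N k) < k - n / 2 →
      k - n / 16 ≤ ev r l (fun _ => full N) m1 (fun ξ => (ht ξ z' : ℝ)) (bot N k) →
      2 * N * (∑ y ∈ Finset.Ico z z', aa r l y - δ ^ 2 * N) ≤ (m1 : ℝ) - s)
    (hA : Adm N r l) (hk : k ≤ N) (hk0 : 0 < k) (hN : 0 < N) (hδ : 0 < δ) (hC : 0 ≤ C)
    (hj : j < J) (hJ : J * g ≤ N - k)
    (haa : ∀ y, y + 1 < N → aa r l y ≤ C)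
    (hH : ∀ x, x ≤ N → (min k (N - x) : ℕ) - (N : ℝ) ^ (0.55 : ℝ) ≤
      ev r l (fun _ => full N) m1 (fun ξ => (ht ξ x : ℝ)) (bot N k))
    (hn16 : (N : ℝ) ^ (0.55 : ℝ) ≤ (n : ℝ) / 16)
    (hg1 : δ * N / 2 ≤ g) (hg2 : (g : ℝ) ≤ δ * N) (hn4 : (n : ℝ) / 2 + 2 ≤ δ * N / 4)
    (hkδ : δ * N ≤ k)
    (ht1 : (m1 : ℝ) + 2 * N * (C * (δ * N) + 2 * (δ ^ 2 * N) -
      ∑ y ∈ Finset.Ico (j * g) (J * g), aa r l y) ≤ t) :
    (k : ℝ) - n / 2 ≤
      ev r l (fun _ => full N) t (fun ξ => (ht ξ ((j + 1) * g) : ℝ)) (bot N k) := by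
  have hNr : (0 : ℝ) < N := by exact_mod_cast hN
  have hjg : (j + 1) * g ≤ J * g := Nat.mul_le_mul_right g (by omega)
  have hjg0 : j * g ≤ (j + 1) * g := Nat.mul_le_mul_right g (by omega)
  have n0 : (0 : ℝ) ≤ n := by positivity
  -- heights at the time m1
  have hm1 : ∀ z, z ≤ J * g → (k : ℝ) - n / 16 ≤
      ev r l (fun _ => full N) m1 (fun ξ => (ht ξ z : ℝ)) (bot N k) := by
    intro z hz
    have h1 := hH z (by omega)
    have h2 : min k (N - z) = k := min_eq_left (by omega)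
    rw [h2] at h1
    linarith
  -- heights at small times
  have small : ∀ s : ℕ, (s : ℝ) / (2 * N) ≤ δ / 4 * N + 1 →
      ev r l (fun _ => full N) s (fun ξ => (ht ξ ((j + 1) * g) : ℝ)) (bot N k) < k - n / 2 := by
    intro s hs
    have h1 := lagl_ev_ht hA (fun _ => full N) s ((j + 1) * g) (bot N k)
    rw [ht_bot hk] at h1
    have h3 : (g : ℝ) ≤ ((j + 1) * g : ℕ) := by
      have : g ≤ (j + 1) * g := by nlinarith
      exact_mod_cast this
    by_cases hc : (j + 1) * g ≤ k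
    · rw [Nat.cast_sub hc] at h1
      linarith
    · have : k - (j + 1) * g = 0 := by omega
      rw [this] at h1
      push_cast at h1
      linarith
  by_contra hcon
  have hcon := not_le.1 hcon
  have ht2 : t ≤ m1 := by
    by_contra hlt
    have hlt := not_le.1 hlt
    have h1 := lagl_mono hTIME hA hk hlt.le ((j + 1) * g)
    have h2 := hm1 ((j + 1) * g) hjg
    linarith
  set s' : ℕ := ⌈δ / 4 * N * (2 * N)⌉₊ with hs'
  have hs1 : δ / 4 * N ≤ (s' : ℝ) / (2 * N) := by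
    rw [le_div_iff₀ (by positivity)]
    exact Nat.le_ceil _
  have hs2 : (s' : ℝ) / (2 * N) ≤ δ / 4 * N + 1 := by
    rw [div_le_iff₀ (by positivity)]
    have := (Nat.ceil_lt_add_one (by positivity : 0 ≤ δ / 4 * N * (2 * N))).le
    have hN1 : (1 : ℝ) ≤ N := by exact_mod_cast hN
    calc (s' : ℝ) ≤ δ / 4 * N * (2 * N) + 1 := this
      _ ≤ (δ / 4 * N + 1) * (2 * N) := by nlinarith
  have hs3 : s' ≤ m1 := by
    by_contra hlt
    have hlt := not_le.1 hlt
    have h1 := lagl_mono hTIME hA hk hlt.le ((j + 1) * g)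
    have h2 := hm1 ((j + 1) * g) hjg
    have h3 := small s' hs2
    linarith
  have h5 : ev r l (fun _ => full N) (max t s') (fun ξ => (ht ξ ((j + 1) * g) : ℝ)) (bot N k) <
      k - n / 2 := by
    rcases le_total t s' with h | h
    · rw [max_eq_right h]; exact small s' hs2
    · rw [max_eq_left h]; exact hcon
  have h6 : δ / 4 * N ≤ ((max t s' : ℕ) : ℝ) / (2 * N) := by
    refine hs1.trans ?_
    apply div_le_div_of_nonneg_right _ (by positivity)
    exact_mod_cast le_max_right t s'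
  have h7 := hL ((j + 1) * g) (J * g) (max t s') hjg (by omega) h6 (max_le ht2 hs3) h5
    (hm1 (J * g) le_rfl)
  have h8 : (t : ℝ) ≤ ((max t s' : ℕ) : ℝ) := by exact_mod_cast le_max_left t s'
  have h9 : ∑ y ∈ Finset.Ico (j * g) (J * g), aa r l y =
      ∑ y ∈ Finset.Ico (j * g) ((j + 1) * g), aa r l y +
      ∑ y ∈ Finset.Ico ((j + 1) * g) (J * g), aa r l y :=
    (Finset.sum_Ico_consecutive _ hjg0 hjg).symm
  have h10 : ∑ y ∈ Finset.Ico (j * g) ((j + 1) * g), aa r l y ≤ C * (δ * N) := by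
    calc ∑ y ∈ Finset.Ico (j * g) ((j + 1) * g), aa r l y ≤
          ∑ y ∈ Finset.Ico (j * g) ((j + 1) * g), C := by
          apply Finset.sum_le_sum
          intro y hy
          rw [Finset.mem_Ico] at hy
          exact haa y (by omega)
      _ = g * C := by
          rw [Finset.sum_const, Nat.card_Ico, nsmul_eq_mul]
          have : (j + 1) * g - j * g = g := by
            rw [Nat.add_mul, one_mul]; omega
          rw [this]
      _ ≤ C * (δ * N) := by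
          rw [mul_comm]; exact mul_le_mul_of_nonneg_left hg2 hC
  have h11 : 0 < δ ^ 2 * N := by positivity
  rw [h9] at ht1
  nlinarith

/-! ### errors and phases -/

theorem lagl_bad {C0 e1 : ℝ}
    (hC : ∀ (N : ℕ) (r l : ℕ → ℝ) (σ : ℕ → Finset ℕ) (m x : ℕ)
      (a : ℝ) (η : Cfg N), 3 ≤ N → Adm N r l → 0 ≤ a →
      a ≤ ((m : ℝ) / (2 * N) + 1) * Real.log N →
      pr r l σ m {ξ | a ≤ |(ht ξ x : ℝ) - ev r l σ m (fun ζ => (ht ζ x : ℝ)) η|} η ≤
        2 * Real.exp (-(a ^ 2 / (C0 * ((m : ℝ) / (2 * N) + 1) * Real.log N ^ 2))))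
    {r l : ℕ → ℝ} {k n t z : ℕ} (hA : Adm N r l) (hN3 : 3 ≤ N) (hnk : n ≤ k)
    (hH : (k : ℝ) - n / 2 ≤ ev r l (fun _ => full N) t (fun ξ => (ht ξ z : ℝ)) (bot N k))
    (ha : (n : ℝ) / 2 ≤ ((t : ℝ) / (2 * N) + 1) * Real.log N)
    (hb : 2 * Real.exp (-(((n : ℝ) / 2) ^ 2 / (C0 * ((t : ℝ) / (2 * N) + 1) *
      Real.log N ^ 2))) ≤ e1) :
    pr r l (fun _ => full N) t {ζ | ht ζ z < k - n} (bot N k) ≤ e1 := by
  refine le_trans ?_ ((hC N r l (fun _ => full N) t z ((n : ℝ) / 2) (bot N k) hN3 hA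
    (by positivity) ha).trans hb)
  apply pr_mono hA
  intro ζ hζ
  have h1 : ht ζ z < k - n := hζ
  have h2 : (ht ζ z : ℝ) + n ≤ k := by
    have : ht ζ z + n ≤ k := by omega
    exact_mod_cast this
  show (n : ℝ) / 2 ≤ |(ht ζ z : ℝ) - _|
  rw [abs_sub_comm]
  refine le_trans ?_ (le_abs_self _)
  linarith

theorem lagl_idle {r l : ℕ → ℝ} (hA : Adm N r l) {A B n y m D : ℕ} {e : ℝ}
    {σ : ℕ → Finset ℕ} (h1 : ∀ i, σ i ⊆ Finset.Ioo A B)
    (h2 : ∀ ξ : Cfg N, ht ξ 0 = n → ht ξ A = n → pr r l σ m {ζ | ht ζ y < n} ξ ≤ e)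
    (hm : m ≤ D) :
    ∃ σ' : ℕ → Finset ℕ, (∀ i, σ' i ⊆ Finset.Ico 1 B) ∧
      ∀ ξ : Cfg N, ht ξ 0 = n → ht ξ A = n → pr r l σ' D {ζ | ht ζ y < n} ξ ≤ e := by
  refine ⟨cat m σ (fun _ => ∅), ?_, ?_⟩
  · intro i x hx
    unfold cat at hx
    split_ifs at hx
    · have := h1 i hx
      rw [Finset.mem_Ioo] at this
      rw [Finset.mem_Ico]
      omega
    · simp at hx
  · intro ξ x1 x2
    obtain ⟨d, rfl⟩ : ∃ d, D = m + d := ⟨D - m, by omega⟩
    have h3 := pr_cat_fail hA σ (fun _ => ∅) m d (k := n) (A := {ζ : Cfg N | ht ζ y < n}ᶜ)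
      (B := {ζ : Cfg N | ht ζ y < n}ᶜ) (a := e) (b := 0) x1
      (by rw [compl_compl]; exact h2 ξ x1 x2) le_rfl (by
        intro ζ _ y2
        rw [compl_compl]
        unfold pr
        rw [lagl_ev_idle, ind_of_not_mem y2])
    rw [compl_compl, add_zero] at h3
    exact h3

theorem lagl_dur {C δ x R s sat saa : ℝ} {nw : ℝ} (hC : 0 ≤ C) (hδ : 0 < δ) (hδ1 : δ ≤ 1)
    (h1 : sat ≤ (1 + C * δ) * saa) (h2 : saa ≤ s + nw * C) (h3 : s ≤ C * (δ * x))
    (hs : 0 ≤ s) (hnw : 0 ≤ nw) (hR0 : 0 ≤ R)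
    (hR : 8 * ((1 + C) * (nw * C) + R) ≤ δ ^ 2 * x) :
    (1 + δ) ^ 3 * (sat + R) ≤ s + ((7 + 8 * C) * C + 1) * (δ ^ 2 * x) := by
  have c1 : (1 + δ) ^ 3 ≤ 1 + 7 * δ := by nlinarith [mul_nonneg hδ.le hδ.le, pow_pos hδ 3]
  have c2 : (1 + δ) ^ 3 ≤ 8 := by linarith
  have c3 : 0 ≤ (1 + δ) ^ 3 := by positivity
  have c4 : sat ≤ (1 + C * δ) * s + (1 + C) * (nw * C) := by
    have h4 : (1 + C * δ) * saa ≤ (1 + C * δ) * (s + nw * C) :=
      mul_le_mul_of_nonneg_left h2 (by positivity)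
    have h5 : (1 + C * δ) * (nw * C) ≤ (1 + C) * (nw * C) := by
      apply mul_le_mul_of_nonneg_right _ (by positivity)
      nlinarith
    nlinarith
  have c5 : (1 + δ) ^ 3 * ((1 + C * δ) * s) ≤ s + (7 + 8 * C) * δ * s := by
    have h4 : (1 + δ) ^ 3 * (1 + C * δ) ≤ (1 + 7 * δ) * (1 + C * δ) :=
      mul_le_mul_of_nonneg_right c1 (by positivity)
    have h5 : (1 + 7 * δ) * (1 + C * δ) ≤ 1 + (7 + 8 * C) * δ := by
      have : C * δ * δ ≤ C * δ := by
        have : 0 ≤ C * δ := by positivity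
        nlinarith
      nlinarith
    have h6 := mul_le_mul_of_nonneg_right (h4.trans h5) hs
    nlinarith
  have c6 : (1 + δ) ^ 3 * ((1 + C) * (nw * C) + R) ≤ 8 * ((1 + C) * (nw * C) + R) :=
    mul_le_mul_of_nonneg_right c2 (by positivity)
  have c7 : (7 + 8 * C) * δ * s ≤ (7 + 8 * C) * C * (δ ^ 2 * x) := by
    have := mul_le_mul_of_nonneg_left h3 (by positivity : 0 ≤ (7 + 8 * C) * δ)
    nlinarith
  calc (1 + δ) ^ 3 * (sat + R) ≤
        (1 + δ) ^ 3 * ((1 + C * δ) * s + ((1 + C) * (nw * C) + R)) :=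
        mul_le_mul_of_nonneg_left (by linarith) c3
    _ = (1 + δ) ^ 3 * ((1 + C * δ) * s) + (1 + δ) ^ 3 * ((1 + C) * (nw * C) + R) := by ring
    _ ≤ s + (7 + 8 * C) * δ * s + δ ^ 2 * x := by linarith
    _ ≤ s + ((7 + 8 * C) * C + 1) * (δ ^ 2 * x) := by nlinarith

/-! ### large `N` -/

theorem lagl_pow (A a b : ℝ) (h : a < b) : ∀ᶠ x : ℝ in Filter.atTop, A * x ^ a ≤ x ^ b := by
  have h1 := (tendsto_rpow_atTop (sub_pos.2 h)).eventually (Filter.eventually_ge_atTop A)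
  filter_upwards [h1, Filter.eventually_gt_atTop 0] with x hx hx0
  have : x ^ b = x ^ (b - a) * x ^ a := by
    rw [← Real.rpow_add hx0]; congr 1; ring
  rw [this]
  exact mul_le_mul_of_nonneg_right hx (Real.rpow_nonneg hx0.le a)

theorem lagl_log (A b : ℝ) (m : ℕ) (hb : 0 < b) :
    ∀ᶠ x : ℝ in Filter.atTop, A * Real.log x ^ m ≤ x ^ b := by
  have h1 := isLittleO_log_rpow_rpow_atTop (m : ℝ) hb
  have h2 : 0 < 1 / (|A| + 1) := by positivity
  filter_upwards [h1.bound h2, Filter.eventually_ge_atTop 1] with x hx hx1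
  have hl : 0 ≤ Real.log x := Real.log_nonneg hx1
  rw [Real.rpow_natCast, Real.norm_of_nonneg (by positivity),
    Real.norm_of_nonneg (Real.rpow_nonneg (by linarith) b)] at hx
  have h3 : A * Real.log x ^ m ≤ (|A| + 1) * Real.log x ^ m := by
    apply mul_le_mul_of_nonneg_right _ (by positivity)
    have := le_abs_self A
    linarith
  refine h3.trans ?_
  calc (|A| + 1) * Real.log x ^ m ≤ (|A| + 1) * (1 / (|A| + 1) * x ^ b) :=
        mul_le_mul_of_nonneg_left hx (by positivity)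
    _ = x ^ b := by field_simp

theorem lagl_asym (δ c C as K0 C0 K' : ℝ) (hδ : 0 < δ) (hc : 0 < c) :
    ∃ N0 : ℕ, ∀ N : ℕ, N0 ≤ N → 3 ≤ N ∧ 4 ≤ δ * N ∧
      16 * (N : ℝ) ^ (0.55 : ℝ) ≤ (N : ℝ) ^ (0.6 : ℝ) ∧
      2 * (N : ℝ) ^ (0.6 : ℝ) ≤ (N : ℝ) ^ (0.7 : ℝ) ∧
      4 * K0 * Real.log N ≤ (N : ℝ) ^ (0.6 : ℝ) ∧
      20 * (N : ℝ) ^ (0.6 : ℝ) + 8 ≤ δ * N ∧
      20 * (N : ℝ) ^ (0.6 : ℝ) ≤ c * N ∧
      8 * ((1 + C) * (3 * (N : ℝ) ^ (0.6 : ℝ) * C) + (2 * (N : ℝ) ^ (0.6 : ℝ) * as +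
        (6 * (N : ℝ) ^ (0.6 : ℝ) + 4) * ((N : ℝ) ^ (0.05 : ℝ) * as))) ≤ δ ^ 2 * N ∧
      1 ≤ Real.log N ∧
      28 * C0 * K' * Real.log N ^ 3 ≤ (N : ℝ) ^ (0.2 : ℝ) ∧
      2 * N * (K' * N) + 1 ≤ (N : ℝ) ^ 3 ∧
      1 + 2 / δ ≤ 2 * N * (δ * N) := by
  have e0 : ∀ᶠ x : ℝ in Filter.atTop, 3 ≤ x := Filter.eventually_ge_atTop 3
  have e1 : ∀ᶠ x : ℝ in Filter.atTop, 4 ≤ δ * x :=
    (Filter.tendsto_id.const_mul_atTop hδ).eventually (Filter.eventually_ge_atTop 4)
  have e2 := lagl_pow 16 0.55 0.6 (by norm_num)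
  have e3 := lagl_pow 2 0.6 0.7 (by norm_num)
  have e4 := lagl_log (4 * K0) 0.6 1 (by norm_num)
  have e5 := lagl_pow (40 / δ) 0.6 1 (by norm_num)
  have e6 : ∀ᶠ x : ℝ in Filter.atTop, 16 ≤ δ * x :=
    (Filter.tendsto_id.const_mul_atTop hδ).eventually (Filter.eventually_ge_atTop 16)
  have e7 := lagl_pow (20 / c) 0.6 1 (by norm_num)
  set A : ℝ := 24 * (1 + |C|) * |C| + 16 * |as| + 80 * |as| with hA
  have e8 := lagl_pow (A / δ ^ 2) 0.65 1 (by norm_num)
  have e9 : ∀ᶠ x : ℝ in Filter.atTop, 1 ≤ Real.log x :=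
    Real.tendsto_log_atTop.eventually (Filter.eventually_ge_atTop 1)
  have e10 := lagl_log (28 * C0 * K') 0.2 3 (by norm_num)
  have e11 := lagl_pow (2 * |K'| + 1) 2 3 (by norm_num)
  have e12 : ∀ᶠ x : ℝ in Filter.atTop, 1 + 2 / δ ≤ δ * x :=
    (Filter.tendsto_id.const_mul_atTop hδ).eventually (Filter.eventually_ge_atTop _)
  have all := (((((e0.and e1).and (e2.and e3)).and ((e4.and e5).and (e6.and e7))).and
    ((e8.and e9).and (e10.and e11))).and e12)
  have all' := tendsto_natCast_atTop_atTop.eventually all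
  rw [Filter.eventually_atTop] at all'
  obtain ⟨N0, hN0⟩ := all'
  refine ⟨N0, fun N hN => ?_⟩
  obtain ⟨⟨⟨⟨⟨f0, f1⟩, ⟨f2, f3⟩⟩, ⟨⟨f4, f5⟩, ⟨f6, f7⟩⟩⟩, ⟨⟨f8, f9⟩, ⟨f10, f11⟩⟩⟩, f12⟩ := hN0 N hN
  have hN3 : 3 ≤ N := by exact_mod_cast f0
  have hN1 : (1 : ℝ) ≤ N := by linarith
  rw [pow_one] at f4
  rw [Real.rpow_one] at f5 f7 f8
  have hx6 : 0 ≤ (N : ℝ) ^ (0.6 : ℝ) := Real.rpow_nonneg (by linarith) _
  refine ⟨hN3, f1, f2, f3, f4, ?_, ?_, ?_, f9, f10, ?_, ?_⟩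
  · rw [div_mul_eq_mul_div, div_le_iff₀ hδ] at f5
    linarith
  · rw [div_mul_eq_mul_div, div_le_iff₀ hc] at f7
    linarith
  · rw [div_mul_eq_mul_div, div_le_iff₀ (by positivity)] at f8
    refine le_trans ?_ (f8.trans_eq (mul_comm _ _))
    have g1 : (N : ℝ) ^ (0.6 : ℝ) ≤ (N : ℝ) ^ (0.65 : ℝ) :=
      Real.rpow_le_rpow_of_exponent_le hN1 (by norm_num)
    have g2 : (N : ℝ) ^ (0.6 : ℝ) * (N : ℝ) ^ (0.05 : ℝ) = (N : ℝ) ^ (0.65 : ℝ) := by
      rw [← Real.rpow_add (by linarith)]; norm_num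
    have g3 : (N : ℝ) ^ (0.05 : ℝ) ≤ (N : ℝ) ^ (0.65 : ℝ) :=
      Real.rpow_le_rpow_of_exponent_le hN1 (by norm_num)
    have g4 : 0 ≤ (N : ℝ) ^ (0.05 : ℝ) := Real.rpow_nonneg (by linarith) _
    have g5 : 0 ≤ (N : ℝ) ^ (0.65 : ℝ) := Real.rpow_nonneg (by linarith) _
    set X := (N : ℝ) ^ (0.65 : ℝ) with hX
    set Y := (N : ℝ) ^ (0.6 : ℝ) with hY
    set V := (N : ℝ) ^ (0.05 : ℝ) with hV
    have a1 : (1 + C) * (3 * Y * C) ≤ 3 * ((1 + |C|) * |C|) * X := by
      have b1 : (1 + C) * C ≤ (1 + |C|) * |C| := by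
        have h1 := le_abs_self C
        have h2 := abs_nonneg C
        have h3 : C * C ≤ |C| * |C| := by
          have := abs_mul_abs_self C
          linarith
        nlinarith
      calc (1 + C) * (3 * Y * C) = 3 * ((1 + C) * C) * Y := by ring
        _ ≤ 3 * ((1 + |C|) * |C|) * Y := by
            apply mul_le_mul_of_nonneg_right _ hx6
            linarith
        _ ≤ 3 * ((1 + |C|) * |C|) * X :=
            mul_le_mul_of_nonneg_left g1 (by positivity)
    have a2 : 2 * Y * as ≤ 2 * |as| * X := by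
      calc 2 * Y * as ≤ 2 * Y * |as| :=
            mul_le_mul_of_nonneg_left (le_abs_self as) (by positivity)
        _ = 2 * |as| * Y := by ring
        _ ≤ 2 * |as| * X := mul_le_mul_of_nonneg_left g1 (by positivity)
    have a3 : (6 * Y + 4) * (V * as) ≤ 10 * |as| * X := by
      calc (6 * Y + 4) * (V * as) ≤ (6 * Y + 4) * (V * |as|) := by
            apply mul_le_mul_of_nonneg_left _ (by positivity)
            exact mul_le_mul_of_nonneg_left (le_abs_self as) g4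
        _ = 6 * |as| * (Y * V) + 4 * |as| * V := by ring
        _ ≤ 6 * |as| * X + 4 * |as| * X := by
            rw [g2]
            have := mul_le_mul_of_nonneg_left g3 (by positivity : 0 ≤ 4 * |as|)
            linarith
        _ = 10 * |as| * X := by ring
    calc _ ≤ 8 * (3 * ((1 + |C|) * |C|) * X + (2 * |as| * X + 10 * |as| * X)) := by
          linarith
      _ = A * X := by rw [hA]; ring
  · have h1 : (N : ℝ) ^ (2 : ℝ) = (N : ℝ) ^ (2 : ℕ) := by
      rw [← Real.rpow_natCast]; norm_num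
    have h2 : (N : ℝ) ^ (3 : ℝ) = (N : ℝ) ^ (3 : ℕ) := by
      rw [← Real.rpow_natCast]; norm_num
    rw [h1, h2] at f11
    have h3 := le_abs_self K'
    have h4 : 2 * (N : ℝ) * (K' * N) ≤ 2 * |K'| * (N : ℝ) ^ 2 := by
      have : (N : ℝ) ^ 2 * K' ≤ (N : ℝ) ^ 2 * |K'| :=
        mul_le_mul_of_nonneg_left h3 (by positivity)
      nlinarith
    have h5 : (1 : ℝ) ≤ (N : ℝ) ^ 2 := by nlinarith
    nlinarith
  · have : δ * N ≤ 2 * N * (δ * N) := by
      have : 0 ≤ δ * N := by positivity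
      nlinarith
    linarith

theorem lagl_poly {x : ℝ} (hx : 3 ≤ x) : (x + 1) * x ^ 2 ≤ 1 * x ^ 4 := by
  have h1 : x + 1 ≤ x ^ 2 := by nlinarith
  calc (x + 1) * x ^ 2 ≤ x ^ 2 * x ^ 2 := mul_le_mul_of_nonneg_right h1 (by positivity)
    _ = 1 * x ^ 4 := by ring

/-- the error of the concentration inequality -/
theorem lagl_exp {C0 K' T x y L : ℝ} (hC0 : 0 < C0) (hT : 0 < T) (hTK : T ≤ K' * x)
    (hx : 2 ≤ x) (hL : L = Real.log x) (hL1 : 1 ≤ L) (hy : x ^ (0.6 : ℝ) ≤ y)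
    (h : 28 * C0 * K' * L ^ 3 ≤ x ^ (0.2 : ℝ)) :
    2 * Real.exp (-((y / 2) ^ 2 / (C0 * T * L ^ 2))) ≤ (x ^ 6)⁻¹ := by
  have hx0 : 0 < x := by linarith
  have h1 : 7 * L ≤ (y / 2) ^ 2 / (C0 * T * L ^ 2) := by
    rw [le_div_iff₀ (by positivity)]
    have a1 : (x ^ (0.6 : ℝ)) ^ 2 = x * x ^ (0.2 : ℝ) := by
      rw [← Real.rpow_natCast, ← Real.rpow_mul hx0.le]
      have : (x : ℝ) * x ^ (0.2 : ℝ) = x ^ (1 : ℝ) * x ^ (0.2 : ℝ) := by rw [Real.rpow_one]
      rw [this, ← Real.rpow_add hx0]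
      norm_num
    have a2 : (x ^ (0.6 : ℝ)) ^ 2 ≤ y ^ 2 :=
      pow_le_pow_left₀ (Real.rpow_nonneg hx0.le _) hy 2
    have a3 : 7 * L * (C0 * T * L ^ 2) = 7 * C0 * L ^ 3 * T := by ring
    have a4 : 7 * C0 * L ^ 3 * T ≤ 7 * C0 * L ^ 3 * (K' * x) :=
      mul_le_mul_of_nonneg_left hTK (by positivity)
    have a5 := mul_le_mul_of_nonneg_left h hx0.le
    rw [a3]
    rw [a1] at a2
    nlinarith
  have h2 : Real.exp (-((y / 2) ^ 2 / (C0 * T * L ^ 2))) ≤ Real.exp (-(7 * L)) :=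
    Real.exp_le_exp.2 (by linarith)
  have h3 : Real.exp (-(7 * L)) = (x ^ 7)⁻¹ := by
    rw [Real.exp_neg, hL]
    congr 1
    have : (7 : ℝ) * Real.log x = ((7 : ℕ) : ℝ) * Real.log x := by norm_num
    rw [this, Real.exp_nat_mul, Real.exp_log hx0]
  rw [h3] at h2
  have h4 : 2 * (x ^ 7)⁻¹ ≤ (x ^ 6)⁻¹ := by
    rw [← div_eq_mul_inv, div_le_iff₀ (by positivity), inv_mul_eq_div,
      le_div_iff₀ (by positivity)]
    have : 0 < x ^ 6 := by positivity
    nlinarith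
  linarith

theorem st_LAGL (hCONC : ST_CONC) (hTIME : ST_TIME) (hCENS : ST_CENS) (hRATE : ST_RATE)
    (hWALL : ST_WALL) (hLAGLOW : ST_LAGLOW) (hPHASE : ST_PHASE) (hATCMP : ST_ATCMP)
    (hNNG : ST_NNG) : ST_LAGL := by
  intro p0 q0 c K hq0 hqp hp1 hc hK
  obtain ⟨C0, hC0, hCC⟩ := hCONC
  obtain ⟨C, ηA, hC, hηA, hηA1, hAT⟩ := hATCMP p0 q0 hq0 hqp hp1
  obtain ⟨ηN, hηN, hηN1, hNG⟩ := hNNG p0 q0 c 0.05 hq0 hqp hp1 hc (by norm_num) (by norm_num)
  set C4 : ℝ := (7 + 8 * C) * C + 1 with hC4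
  have hC4p : 0 < C4 := by positivity
  refine ⟨C + 3 + 2 * C4, min 1 (min c (min ηA ηN)), by positivity,
    lt_min one_pos (lt_min hc (lt_min hηA hηN)), ?_⟩
  intro δ hδ hδm
  have hδ1 : δ ≤ 1 := hδm.trans (min_le_left _ _)
  have hδc : δ ≤ c := hδm.trans ((min_le_right _ _).trans (min_le_left _ _))
  have hδA : δ ≤ ηA :=
    hδm.trans ((min_le_right _ _).trans ((min_le_right _ _).trans (min_le_left _ _)))
  have hδN : δ ≤ ηN :=
    hδm.trans ((min_le_right _ _).trans ((min_le_right _ _).trans (min_le_right _ _)))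
  obtain ⟨NA, hNA⟩ := hAT δ hδ hδA
  obtain ⟨K0, as, Cs, C1, has, hCs, hC1, hK0, hNG2⟩ := hNG δ hδ hδN
  obtain ⟨m0, NB, hNB⟩ := hNG2 1 one_pos
  obtain ⟨NL, hNL⟩ := hLAGLOW p0 q0 K (δ ^ 2) (δ / 4) hq0 hqp hp1 hK (by positivity)
    (by positivity)
  obtain ⟨NP, hNP⟩ := hPHASE 0.05 δ δ Cs (by norm_num) (by norm_num) hδ hδ1 hδ hδ1 hCs
  set C3 : ℝ := C + 3 + 2 * C4 with hC3
  have hC3p : 0 < C3 := by positivity
  set K' : ℝ := K + C3 + 1 with hK'
  have hK'p : 0 < K' := by positivity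
  obtain ⟨NX, hNX⟩ := lagl_asym δ c C as K0 C0 K' hδ hc
  refine ⟨max NA (max NB (max NL (max NP NX))), ?_⟩
  intro N k r l m1 m hN hk1 hk2 hnn hm1 hH hm
  obtain ⟨hN3, x1, x2, x3, x4, x5, x6, x7, x8, x9, x10, x11⟩ := hNX N (by omega)
  have hNr : (3 : ℝ) ≤ N := by exact_mod_cast hN3
  have hN0 : (0 : ℝ) < N := by linarith
  have hkN : k ≤ N := by
    have h1 : 0 ≤ c * N := by positivity
    have : (k : ℝ) ≤ N := by linarith
    exact_mod_cast this
  have hcδ : δ * N ≤ c * N := mul_le_mul_of_nonneg_right hδc hN0.le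
  have hδ2 : δ ^ 2 ≤ δ := by rw [sq]; exact mul_le_of_le_one_right hδ.le hδ1
  have hA := lagl_adm hq0 hqp hp1 hnn
  obtain ⟨w, hw, _, _, hlm, hSE⟩ := hNB N k r l (by omega) hk1 hk2 hnn
  set Y : ℝ := (N : ℝ) ^ (0.6 : ℝ) with hY
  have hY1 : 1 ≤ Y := Real.one_le_rpow (by linarith) (by norm_num)
  set n : ℕ := ⌈Y⌉₊ with hn
  have hn1 : Y ≤ n := Nat.le_ceil _
  have hn2 : (n : ℝ) ≤ 2 * Y := by
    have := (Nat.ceil_lt_add_one (by linarith : 0 ≤ Y)).le
    linarith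
  have hn0 : 1 ≤ n := by
    have : (1 : ℝ) ≤ n := by linarith
    exact_mod_cast this
  have hw4 : 4 * (w : ℝ) ≤ Y := by linarith
  have hw0 : (0 : ℝ) ≤ w := by positivity
  have hwn : 3 * w ≤ n := by
    have : 3 * (w : ℝ) ≤ n := by linarith
    exact_mod_cast this
  set g : ℕ := ⌊δ * N⌋₊ with hg
  have hg2 : (g : ℝ) ≤ δ * N := Nat.floor_le (by positivity)
  have hg1 : δ * N / 2 ≤ g := by
    have := (Nat.lt_floor_add_one (δ * N)).le
    linarith
  have hng : 4 * n + w ≤ g := by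
    have : 4 * (n : ℝ) + w ≤ g := by linarith
    exact_mod_cast this
  have hg0 : 0 < g := by omega
  have hnk : n ≤ k := by
    have : (n : ℝ) ≤ k := by linarith
    exact_mod_cast this
  have hkpos : 0 < k := by omega
  set J : ℕ := (N - k) / g with hJ
  have hJ1 : J * g ≤ N - k := Nat.div_mul_le_self _ _
  have hJ2 : N - k < J * g + g := by
    have h1 := Nat.div_add_mod (N - k) g
    have h2 := Nat.mod_lt (N - k) hg0
    rw [← hJ, Nat.mul_comm] at h1
    omega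
  have hgk : g ≤ N - k := by
    have h1 : (g : ℝ) + k ≤ N := by linarith
    have h2 : g + k ≤ N := by exact_mod_cast h1
    omega
  have hJ0 : 1 ≤ J := by
    rw [hJ]
    exact Nat.div_pos hgk hg0
  have hJr : (J : ℝ) ≤ 2 / δ := by
    rw [le_div_iff₀ hδ]
    have h1 : (J : ℝ) * g ≤ N := by
      have : J * g ≤ N := hJ1.trans (Nat.sub_le _ _)
      exact_mod_cast this
    have h2 : (J : ℝ) * (δ * N / 2) ≤ J * g := mul_le_mul_of_nonneg_left hg1 (by positivity)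
    have h3 : (J : ℝ) * δ * N ≤ 2 * N := by linarith
    exact le_of_mul_le_mul_right h3 hN0
  have hJN : J ≤ N := by
    have h1 : J * 1 ≤ J * g := Nat.mul_le_mul_left J hg0
    omega
  have haa : ∀ y, y + 1 < N → 1 ≤ aa r l y ∧ aa r l y ≤ C := by
    intro y hy
    obtain ⟨h1, h2, _, _⟩ := hNA N r l w y (by omega) hnn hy
    exact ⟨h1, h2⟩
  have hJgN : J * g + 1 ≤ N := by omega
  -- the blocks
  set bs : ℕ → ℝ := fun j => ∑ y ∈ Finset.Ico (j * g) ((j + 1) * g), aa r l y with hbs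
  have hmul : ∀ j, j < J → (j + 1) * g ≤ J * g := fun j hj =>
    Nat.mul_le_mul_right g (by omega)
  have hmul' : ∀ j : ℕ, (j + 1) * g = j * g + g := fun j => by ring
  have bs0 : ∀ j < J, 0 ≤ bs j := by
    intro j hj
    apply Finset.sum_nonneg
    intro y hy
    rw [Finset.mem_Ico] at hy
    have := hmul j hj
    have := (haa y (by omega)).1
    linarith
  have bsC : ∀ j < J, bs j ≤ C * (δ * N) := by
    intro j hj
    calc bs j ≤ ∑ y ∈ Finset.Ico (j * g) ((j + 1) * g), C := by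
          apply Finset.sum_le_sum
          intro y hy
          rw [Finset.mem_Ico] at hy
          have := hmul j hj
          exact (haa y (by omega)).2
      _ = g * C := by
          rw [Finset.sum_const, Nat.card_Ico, nsmul_eq_mul]
          have : (j + 1) * g - j * g = g := by rw [hmul']; omega
          rw [this]
      _ ≤ C * (δ * N) := by
          rw [mul_comm]; exact mul_le_mul_of_nonneg_left hg2 hC.le
  have bsum : ∀ j, ∑ q ∈ Finset.range j, bs q = ∑ y ∈ Finset.Ico 0 (j * g), aa r l y := by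
    intro j
    induction j with
    | zero => simp
    | succ j ih =>
      rw [Finset.sum_range_succ, ih, hbs]
      exact Finset.sum_Ico_consecutive _ (Nat.zero_le _) (by rw [hmul']; omega)
  set D : ℕ → ℕ := fun j => ⌈2 * N * (bs j + C4 * (δ ^ 2 * N))⌉₊ with hD
  have hD1 : ∀ j, 2 * N * (bs j + C4 * (δ ^ 2 * N)) ≤ D j := fun j => Nat.le_ceil _
  have hD2 : ∀ j < J, (D j : ℝ) ≤ 2 * N * (bs j + C4 * (δ ^ 2 * N)) + 1 := by
    intro j hj
    apply (Nat.ceil_lt_add_one _).le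
    have := bs0 j hj
    positivity
  set s0 : ℕ := ⌈(m1 : ℝ) + 2 * N * (C * (δ * N) + 2 * (δ ^ 2 * N) -
    ∑ y ∈ Finset.Ico 0 (J * g), aa r l y)⌉₊ with hs0
  have hs0a : (m1 : ℝ) + 2 * N * (C * (δ * N) + 2 * (δ ^ 2 * N) -
    ∑ y ∈ Finset.Ico 0 (J * g), aa r l y) ≤ s0 := Nat.le_ceil _
  -- starting times of the phases
  have hstart : ∀ j ≤ J, ∀ i, ∑ q ∈ Finset.range j, D q ≤ i →
      (m1 : ℝ) + 2 * N * (C * (δ * N) + 2 * (δ ^ 2 * N) -
      ∑ y ∈ Finset.Ico (j * g) (J * g), aa r l y) ≤ ((s0 + i : ℕ) : ℝ) := by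
    intro j hj i hi
    have h1 : 2 * N * ∑ y ∈ Finset.Ico 0 (j * g), aa r l y ≤ (i : ℝ) := by
      have h2 : ((∑ q ∈ Finset.range j, D q : ℕ) : ℝ) ≤ i := by exact_mod_cast hi
      refine le_trans ?_ h2
      rw [← bsum j, Finset.mul_sum]
      push_cast
      apply Finset.sum_le_sum
      intro q _
      refine le_trans ?_ (hD1 q)
      apply mul_le_mul_of_nonneg_left _ (by positivity)
      have : 0 ≤ C4 * (δ ^ 2 * N) := by positivity
      linarith
    have h3 : ∑ y ∈ Finset.Ico 0 (J * g), aa r l y =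
        ∑ y ∈ Finset.Ico 0 (j * g), aa r l y + ∑ y ∈ Finset.Ico (j * g) (J * g), aa r l y :=
      (Finset.sum_Ico_consecutive _ (Nat.zero_le _) (Nat.mul_le_mul_right g hj)).symm
    rw [h3] at hs0a
    push_cast
    linarith
  have hn4 : (n : ℝ) / 2 + 2 ≤ δ * N / 4 := by linarith
  have hkδ : δ * N ≤ k := by linarith
  have hlow : ∀ j < J, ∀ i, ∑ q ∈ Finset.range j, D q ≤ i → (k : ℝ) - n / 2 ≤
      ev r l (fun _ => full N) (s0 + i) (fun ξ => (ht ξ ((j + 1) * g) : ℝ)) (bot N k) := by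
    intro j hj i hi
    apply lagl_low hTIME (fun z z' s h1 h2 h3 h4 h5 h6 =>
      hNL N k n z z' s m1 r l (by omega) hnn hkN h1 h2 hn1 hnk (by linarith) h3 h4 hm1 h5 h6)
      hA hkN hkpos (by omega) hδ hC.le hj hJ1 (fun y hy => (haa y hy).2) hH (by linarith) hg1
      hg2 hn4 hkδ
    exact hstart j hj.le i hi
  -- times of order N^2
  have hbig : ∀ j < J, ∀ i, ∑ q ∈ Finset.range j, D q ≤ i →
      (n : ℝ) / 2 + 1 ≤ ((s0 + i : ℕ) : ℝ) / (2 * N) := by
    intro j hj i hi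
    have h1 := hlow j hj i hi
    have h2 := lagl_ev_ht hA (fun _ => full N) (s0 + i) ((j + 1) * g) (bot N k)
    rw [ht_bot hkN] at h2
    have h3 : (g : ℝ) ≤ ((j + 1) * g : ℕ) := by
      have : g ≤ (j + 1) * g := Nat.le_mul_of_pos_left g (Nat.succ_pos j)
      exact_mod_cast this
    by_cases hcc : (j + 1) * g ≤ k
    · rw [Nat.cast_sub hcc] at h2
      linarith
    · have : k - (j + 1) * g = 0 := by omega
      rw [this, Nat.cast_zero] at h2
      linarith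
  have hs0p : 0 < s0 := by
    have h1 := hbig 0 (by omega) 0 (by simp)
    rw [add_zero] at h1
    by_contra h0
    have h0' : s0 = 0 := by omega
    rw [h0'] at h1
    simp at h1
    have : (0 : ℝ) ≤ n := by positivity
    linarith
  have hs0b : (s0 : ℝ) ≤ (m1 : ℝ) + 2 * N * (C * (δ * N) + 2 * (δ ^ 2 * N) -
      ∑ y ∈ Finset.Ico 0 (J * g), aa r l y) + 1 :=
    (Nat.ceil_lt_add_one (Nat.ceil_pos.1 hs0p).le).le
  -- the total duration
  have htot : ((∑ q ∈ Finset.range J, D q : ℕ) : ℝ) ≤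
      2 * N * (∑ y ∈ Finset.Ico 0 (J * g), aa r l y + J * (C4 * (δ ^ 2 * N))) + J := by
    have h1 : ((∑ q ∈ Finset.range J, D q : ℕ) : ℝ) ≤
        ∑ q ∈ Finset.range J, (2 * N * (bs q + C4 * (δ ^ 2 * N)) + 1) := by
      push_cast
      apply Finset.sum_le_sum
      intro q hq
      exact hD2 q (Finset.mem_range.1 hq)
    refine h1.trans (le_of_eq ?_)
    rw [Finset.sum_add_distrib, ← Finset.mul_sum, Finset.sum_add_distrib, bsum J]
    simp
  have hend : ((s0 + ∑ q ∈ Finset.range J, D q : ℕ) : ℝ) ≤ m1 + 2 * N * (C3 * δ * N) := by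
    have h1 : (J : ℝ) * (C4 * (δ ^ 2 * N)) ≤ 2 * C4 * δ * N := by
      have h2 : (J : ℝ) * δ ≤ 2 := by
        have := mul_le_mul_of_nonneg_right hJr hδ.le
        rwa [div_mul_cancel₀ _ hδ.ne'] at this
      have h3 := mul_le_mul_of_nonneg_right h2 (by positivity : 0 ≤ C4 * (δ * N))
      calc (J : ℝ) * (C4 * (δ ^ 2 * N)) = J * δ * (C4 * (δ * N)) := by ring
        _ ≤ 2 * (C4 * (δ * N)) := h3
        _ = 2 * C4 * δ * N := by ring
    have h4 : δ ^ 2 * N ≤ δ * N := mul_le_mul_of_nonneg_right hδ2 hN0.le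
    have h5 : (J : ℝ) + 1 ≤ 2 * N * (δ * N) := by linarith
    have h6 := mul_le_mul_of_nonneg_left h1 (by positivity : (0 : ℝ) ≤ 2 * N)
    have h7 := mul_le_mul_of_nonneg_left h4 (by positivity : (0 : ℝ) ≤ 4 * N)
    have h8 : 2 * (N : ℝ) * (C3 * δ * N) = 2 * N * (C * (δ * N)) + 3 * (2 * N * (δ * N)) +
        2 * N * (2 * C4 * δ * N) := by rw [hC3]; ring
    rw [h8]
    push_cast at htot ⊢
    linarith
  have hT : ∀ i, i ≤ ∑ q ∈ Finset.range J, D q →
      ((s0 + i : ℕ) : ℝ) / (2 * N) + 1 ≤ K' * N := by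
    intro i hi
    have h1 : ((s0 + i : ℕ) : ℝ) ≤ ((s0 + ∑ q ∈ Finset.range J, D q : ℕ) : ℝ) := by
      exact_mod_cast Nat.add_le_add_left hi s0
    have h2 : (m1 : ℝ) ≤ K * N * (2 * N) := by
      rwa [div_le_iff₀ (by positivity)] at hm1
    have h3 : ((s0 + i : ℕ) : ℝ) / (2 * N) ≤ K * N + C3 * N := by
      rw [div_le_iff₀ (by positivity)]
      have h4 : C3 * δ * N ≤ C3 * N :=
        mul_le_mul_of_nonneg_right (mul_le_of_le_one_right hC3p.le hδ1) hN0.le
      have h5 := mul_le_mul_of_nonneg_left h4 (by positivity : (0 : ℝ) ≤ 2 * N)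
      linarith
    rw [hK']
    linarith
  -- errors
  have herr : ∀ j < J, ∀ i, ∑ q ∈ Finset.range j, D q ≤ i → i ≤ ∑ q ∈ Finset.range J, D q →
      pr r l (fun _ => full N) (s0 + i) {ζ | ht ζ ((fun j => (j + 1) * g) j) < k - n}
        (bot N k) ≤ ((N : ℝ) ^ 6)⁻¹ := by
    intro j hj i hi1 hi2
    have h1 := hbig j hj i hi1
    have h2 : 0 < ((s0 + i : ℕ) : ℝ) / (2 * N) + 1 := by
      have : (0 : ℝ) ≤ n := by positivity
      linarith
    apply lagl_bad hCC hA hN3 hnk (hlow j hj i hi1)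
    · have : ((s0 + i : ℕ) : ℝ) / (2 * N) + 1 ≤
          (((s0 + i : ℕ) : ℝ) / (2 * N) + 1) * Real.log N := le_mul_of_one_le_right h2.le x8
      linarith
    · exact lagl_exp hC0 h2 (hT i hi2) (by linarith) rfl x8 hn1 x9
  -- phases
  have hadm' : Adm N r (modl N l) := by
    apply (hSE 0 (g - n) g ?_ ?_ ?_).adm
    · omega
    · omega
    · omega
  have hph : ∀ j < J, ∃ σ : ℕ → Finset ℕ,
      (∀ i, σ i ⊆ Finset.Ico 1 ((fun j => (j + 1) * g) j)) ∧
      ∀ ξ : Cfg N, ht ξ 0 = n → ht ξ ((fun j => j * g - (n + w)) j) = n →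
        pr r (modl N l) σ (D j) {ζ | ht ζ ((fun j => j * g - (n + w)) (j + 1)) < n} ξ ≤
          (N : ℝ) ^ (-5 : ℝ) := by
    intro j hj
    dsimp only
    have hB := hmul j hj
    have hB' := hmul' j
    obtain ⟨σ, mj, y1, y2, y3⟩ := hNP N r (modl N l) (j * g - (n + w)) ((j + 1) * g) w n as
      (by omega) (hSE _ _ _ (by omega) (by omega) (by omega)) hn0 (by omega) has
    have e1 : (j + 1) * g - n - w = (j + 1) * g - (n + w) := by omega
    rw [e1] at y3
    apply lagl_idle hadm' y1 y3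
    have h1 : (mj : ℝ) ≤ D j := by
      refine y2.trans (le_trans ?_ (hD1 j))
      apply mul_le_mul_of_nonneg_left _ (by positivity)
      have q1 : ∑ y ∈ Finset.Ico (j * g - (n + w)) ((j + 1) * g - n),
          atl r (modl N l) δ w y ≤
          (1 + C * δ) * ∑ y ∈ Finset.Ico (j * g - (n + w)) ((j + 1) * g - n), aa r l y := by
        rw [Finset.mul_sum]
        apply Finset.sum_le_sum
        intro y hy
        rw [Finset.mem_Ico] at hy
        exact (hNA N r l w y (by omega) hnn (by omega)).2.2.1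
      have q2 : ∑ y ∈ Finset.Ico (j * g - (n + w)) ((j + 1) * g - n), aa r l y ≤
          bs j + ((n : ℝ) + w) * C := by
        rw [← Finset.sum_Ico_consecutive (aa r l) (m := j * g - (n + w)) (n := j * g)
          (k := (j + 1) * g - n) (by omega) (by omega), add_comm]
        apply add_le_add
        · apply Finset.sum_le_sum_of_subset_of_nonneg
          · apply Finset.Ico_subset_Ico le_rfl (by omega)
          · intro y hy _
            rw [Finset.mem_Ico] at hy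
            have := (haa y (by omega)).1
            linarith
        · calc ∑ y ∈ Finset.Ico (j * g - (n + w)) (j * g), aa r l y ≤
                ∑ y ∈ Finset.Ico (j * g - (n + w)) (j * g), C := by
                apply Finset.sum_le_sum
                intro y hy
                rw [Finset.mem_Ico] at hy
                exact (haa y (by omega)).2
            _ = (j * g - (j * g - (n + w)) : ℕ) * C := by
                rw [Finset.sum_const, Nat.card_Ico, nsmul_eq_mul]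
            _ ≤ ((n : ℝ) + w) * C := by
                apply mul_le_mul_of_nonneg_right _ hC.le
                have : j * g - (j * g - (n + w)) ≤ n + w := by omega
                exact_mod_cast this
      have hV : 0 ≤ (N : ℝ) ^ (0.05 : ℝ) := Real.rpow_nonneg hN0.le _
      have has0 : 0 ≤ as := by linarith
      have q3 : 8 * ((1 + C) * (((n : ℝ) + w) * C) + (n * as + (3 * n + 4) *
          ((N : ℝ) ^ (0.05 : ℝ) * as))) ≤ δ ^ 2 * N := by
        refine le_trans ?_ x7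
        have z1 : (1 + C) * (((n : ℝ) + w) * C) ≤ (1 + C) * (3 * Y * C) := by
          apply mul_le_mul_of_nonneg_left _ (by positivity)
          apply mul_le_mul_of_nonneg_right _ hC.le
          linarith
        have z2 : (n : ℝ) * as ≤ 2 * Y * as := mul_le_mul_of_nonneg_right hn2 has0
        have z3 : (3 * (n : ℝ) + 4) * ((N : ℝ) ^ (0.05 : ℝ) * as) ≤
            (6 * Y + 4) * ((N : ℝ) ^ (0.05 : ℝ) * as) := by
          apply mul_le_mul_of_nonneg_right _ (by positivity)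
          linarith
        linarith
      have q4 := lagl_dur hC.le hδ hδ1 q1 q2 (bsC j hj) (bs0 j hj) (by positivity)
        (by positivity) q3
      rw [← add_assoc] at q4
      exact q4
    exact_mod_cast h1
  have core := lagl_core hCENS hRATE hWALL hA hadm' hlm hkN hnk hJ0 D
    (fun j => (j + 1) * g) (fun j => j * g - (n + w)) ((N : ℝ) ^ (-5 : ℝ)) ((N : ℝ) ^ 6)⁻¹
    (Real.rpow_nonneg hN0.le _)
    (fun a b hab => Nat.mul_le_mul_right g (by omega))
    (fun j hj => by have := hmul j hj; show (j + 1) * g ≤ N; omega)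
    (by simp) (by show n ≤ (0 + 1) * g; omega)
    (by
      show J * g - (n + w) ≤ (J - 1 + 1) * g
      have : J - 1 + 1 = J := by omega
      rw [this]; omega)
    hph herr
  -- later times
  have hmm : s0 + ∑ q ∈ Finset.range J, D q ≤ m := by
    have : ((s0 + ∑ q ∈ Finset.range J, D q : ℕ) : ℝ) ≤ m := hend.trans hm
    exact_mod_cast this
  have late : pr r l (fun _ => full N) m {ζ | ht ζ (N - k - 2 * g) < k} (bot N k) ≤
      pr r l (fun _ => full N) (s0 + ∑ q ∈ Finset.range J, D q)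
        {ζ | ht ζ (J * g - (n + w)) < k} (bot N k) := by
    have h1 : pr r l (fun _ => full N) m {ζ | ht ζ (N - k - 2 * g) < k} (bot N k) ≤
        pr r l (fun _ => full N) (s0 + ∑ q ∈ Finset.range J, D q)
          {ζ | ht ζ (N - k - 2 * g) < k} (bot N k) := by
      have c4 : ({ζ : Cfg N | ht ζ (N - k - 2 * g) < k} : Set (Cfg N)) =
          {ζ | k ≤ ht ζ (N - k - 2 * g)}ᶜ := by
        ext ζ; simp
      rw [c4, pr_compl, pr_compl]
      have := hTIME N k r l _ m (ind {ζ : Cfg N | k ≤ ht ζ (N - k - 2 * g)}) hkN hA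
        (lagl_inc_ind k k _) hmm
      unfold pr
      linarith
    refine h1.trans ?_
    apply pr_mono hA
    intro ζ hζ
    have h2 : ht ζ (N - k - 2 * g) < k := hζ
    show ht ζ (J * g - (n + w)) < k
    have h3 := ht_anti ζ (show N - k - 2 * g ≤ J * g - (n + w) by omega)
    omega
  refine late.trans (core.trans ?_)
  have r5 : (N : ℝ) ^ (-5 : ℝ) = ((N : ℝ) ^ 5)⁻¹ := by
    rw [Real.rpow_neg hN0.le]
    congr 1
    rw [← Real.rpow_natCast]; norm_num
  have r2 : (N : ℝ) ^ (-2 : ℝ) = ((N : ℝ) ^ 2)⁻¹ := by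
    rw [Real.rpow_neg hN0.le]
    congr 1
    rw [← Real.rpow_natCast]; norm_num
  rw [r5, r2]
  have u1 : ((∑ q ∈ Finset.range J, D q : ℕ) : ℝ) + 1 ≤ (N : ℝ) ^ 3 := by
    have h1 := hT (∑ q ∈ Finset.range J, D q) le_rfl
    have h2 : ((∑ q ∈ Finset.range J, D q : ℕ) : ℝ) ≤
        ((s0 + ∑ q ∈ Finset.range J, D q : ℕ) : ℝ) := by
      exact_mod_cast Nat.le_add_left _ _
    have h3 : ((s0 + ∑ q ∈ Finset.range J, D q : ℕ) : ℝ) / (2 * N) ≤ K' * N := by linarith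
    rw [div_le_iff₀ (by positivity)] at h3
    linarith
  have u2 : (J : ℝ) ≤ N := by exact_mod_cast hJN
  have u3 : (((∑ q ∈ Finset.range J, D q : ℕ) : ℝ) + 1) * ((N : ℝ) ^ 6)⁻¹ ≤
      (N : ℝ) ^ 3 * ((N : ℝ) ^ 6)⁻¹ := mul_le_mul_of_nonneg_right u1 (by positivity)
  have u4 : (J : ℝ) * ((N : ℝ) ^ 5)⁻¹ ≤ N * ((N : ℝ) ^ 5)⁻¹ :=
    mul_le_mul_of_nonneg_right u2 (by positivity)
  have u5 : (N : ℝ) ^ 3 * ((N : ℝ) ^ 6)⁻¹ + N * ((N : ℝ) ^ 5)⁻¹ ≤ ((N : ℝ) ^ 2)⁻¹ := by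
    have e1 : (N : ℝ) ^ 3 * ((N : ℝ) ^ 6)⁻¹ + N * ((N : ℝ) ^ 5)⁻¹ =
        ((N : ℝ) + 1) / N ^ 4 := by
      field_simp
    rw [e1, ← one_div, div_le_div_iff₀ (by positivity) (by positivity)]
    exact lagl_poly hNr
  linarith

end Pool.Agent.Helper98.EX
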