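import Pool.Agent.Helper98.EX.Stmts

/-!
# LEAD: speed bound for the leader of an exclusion process with right drift
-/

namespace Pool.Agent.Helper98.EX

open Finset

variable {N : ℕ}

/-- the weighted sum over the particles -/
noncomputable def lead_Phi (g : ℕ → ℝ) (ξ : Cfg N) : ℝ :=
  ∑ i ∈ Finset.range N, (if occ ξ i = true then g i else 0)

theorem lead_swp (g : ℕ → ℝ) (ξ : Cfg N) {x : ℕ} (h1 : 1 ≤ x) (h2 : x < N) :
    lead_Phi g (swp x ξ) - lead_Phi g ξ =
      ((if occ ξ (x - 1) = true then 1 else 0) - (if occ ξ x = true then 1 else 0)) *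
        (g x - g (x - 1)) := by
  unfold lead_Phi
  rw [← Finset.sum_sub_distrib]
  rw [Finset.sum_eq_add_of_mem (x - 1) x (by rw [Finset.mem_range]; omega)
    (by rw [Finset.mem_range]; omega) (by omega)]
  · rw [occ_swp_self h1 h2, occ_swp_pred h1 h2]
    split_ifs <;> ring
  · intro c _ hc
    rw [occ_swp_ne h1 h2 ξ hc.2 (by omega)]
    ring

theorem lead_Rm (g : ℕ → ℝ) (ξ : Cfg N) {x : ℕ} (h1 : 1 ≤ x) (h2 : x < N) :
    lead_Phi g (Rm x ξ) - lead_Phi g ξ =
      (if occ ξ (x - 1) = true then 1 else 0) * (1 - (if occ ξ x = true then 1 else 0)) *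
        (g x - g (x - 1)) := by
  unfold Rm
  by_cases p : occ ξ (x - 1) = true
  · by_cases q : occ ξ x = true
    · rw [if_neg (by simp [q])]
      simp [q]
    · have q' : occ ξ x = false := by simpa using q
      rw [if_pos ⟨h1, h2, p, q'⟩, lead_swp g ξ h1 h2]
      simp [p, q']
  · rw [if_neg (by tauto)]
    simp [p]

theorem lead_Lm (g : ℕ → ℝ) (ξ : Cfg N) {x : ℕ} (h1 : 1 ≤ x) (h2 : x < N) :
    lead_Phi g (Lm x ξ) - lead_Phi g ξ =
      - ((1 - (if occ ξ (x - 1) = true then 1 else 0)) * (if occ ξ x = true then 1 else 0) *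
        (g x - g (x - 1))) := by
  unfold Lm
  by_cases p : occ ξ (x - 1) = true
  · rw [if_neg (by simp [p])]
    simp [p]
  · have p' : occ ξ (x - 1) = false := by simpa using p
    by_cases q : occ ξ x = true
    · rw [if_pos ⟨h1, h2, p', q⟩, lead_swp g ξ h1 h2]
      simp [p', q]
    · rw [if_neg (by tauto)]
      simp [q]

/-- rearrangement of the sum over the bonds into a sum over the particles -/
theorem lead_rearr (g r l o : ℕ → ℝ) (M : ℕ) :
    ∑ x ∈ Finset.Ico 1 (M + 1), (g x - g (x - 1)) * (r x * o (x - 1) - l x * o x) =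
      ∑ i ∈ Finset.range (M + 1), o i * ((if i < M then r (i + 1) * (g (i + 1) - g i) else 0) -
        (if i = 0 then 0 else l i * (g i - g (i - 1)))) := by
  have h1 : ∑ x ∈ Finset.Ico 1 (M + 1), (g x - g (x - 1)) * (r x * o (x - 1) - l x * o x) =
      ∑ x ∈ Finset.range M, (g (x + 1) - g x) * (r (x + 1) * o x) -
        ∑ x ∈ Finset.range M, (g (x + 1) - g x) * (l (x + 1) * o (x + 1)) := by
    rw [Finset.sum_Ico_eq_sum_range, ← Finset.sum_sub_distrib]
    apply Finset.sum_congr (by simp)
    intro x _
    have e : 1 + x = x + 1 := by ring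
    have e' : x + 1 - 1 = x := by omega
    rw [e, e']; ring
  have h2 : ∑ i ∈ Finset.range (M + 1),
      o i * ((if i < M then r (i + 1) * (g (i + 1) - g i) else 0) -
        (if i = 0 then 0 else l i * (g i - g (i - 1)))) =
      ∑ i ∈ Finset.range (M + 1), o i * (if i < M then r (i + 1) * (g (i + 1) - g i) else 0) -
      ∑ i ∈ Finset.range (M + 1), o i * (if i = 0 then 0 else l i * (g i - g (i - 1))) := by
    rw [← Finset.sum_sub_distrib]
    apply Finset.sum_congr rfl
    intro i _; ring
  rw [h1, h2]
  congr 1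
  · rw [Finset.sum_range_succ, if_neg (lt_irrefl M), mul_zero, add_zero]
    apply Finset.sum_congr rfl
    intro i hi
    rw [Finset.mem_range] at hi
    rw [if_pos hi]; ring
  · rw [Finset.sum_range_succ', if_pos rfl, mul_zero, add_zero]
    apply Finset.sum_congr rfl
    intro i _
    rw [if_neg (by omega)]
    have e' : i + 1 - 1 = i := by omega
    rw [e']; ring

theorem lead_exp1 {t : ℝ} (h0 : 0 ≤ t) (h1 : t ≤ 1) : Real.exp t - 1 ≤ t + t ^ 2 := by
  have := Real.abs_exp_sub_one_sub_id_le (x := t) (by rw [abs_of_nonneg h0]; exact h1)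
  have := (abs_le.1 this).2
  linarith

theorem lead_exp2 {t : ℝ} (h0 : 0 ≤ t) (h1 : t ≤ 1) : t - t ^ 2 ≤ 1 - Real.exp (-t) := by
  have := Real.abs_exp_sub_one_sub_id_le (x := -t) (by rw [abs_neg, abs_of_nonneg h0]; exact h1)
  have := (abs_le.1 this).2
  have e : (-t) ^ 2 = t ^ 2 := by ring
  rw [e] at this
  linarith

/-- one step -/
theorem lead_step {r l a : ℕ → ℝ} {lam C : ℝ} (hN : 1 ≤ N) (hA : Adm N r l)
    (hlr : ∀ b, 1 ≤ b → b < N → l b ≤ r b) (ha : ∀ y, 0 ≤ a y)
    (hy : ∀ y, y + 1 < N → a y ≤ C ∧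
      r (y + 1) * a y = 1 + (if y = 0 then 0 else l y * a (y - 1)))
    (hlam : 0 ≤ lam) (hlC : lam * C ≤ 1) (hC : 0 ≤ C) (ξ : Cfg N) :
    stp r l (full N) (lead_Phi (fun i => Real.exp (lam * ∑ y ∈ Finset.range i, a y))) ξ ≤
      (1 + (lam + 2 * C ^ 2 * lam ^ 2) / (2 * N)) *
        lead_Phi (fun i => Real.exp (lam * ∑ y ∈ Finset.range i, a y)) ξ := by
  set g : ℕ → ℝ := fun i => Real.exp (lam * ∑ y ∈ Finset.range i, a y) with hg
  have gpos : ∀ i, 0 < g i := fun i => Real.exp_pos _
  have gs : ∀ i, g (i + 1) = g i * Real.exp (lam * a i) := by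
    intro i
    simp only [hg]
    rw [← Real.exp_add, Finset.sum_range_succ]
    congr 1; ring
  have gs' : ∀ i, g i = g (i + 1) * Real.exp (-(lam * a i)) := by
    intro i
    rw [gs, mul_assoc, ← Real.exp_add]
    simp
  have gmono : ∀ i, g i ≤ g (i + 1) := by
    intro i
    rw [gs]
    have : 1 ≤ Real.exp (lam * a i) := Real.one_le_exp (mul_nonneg hlam (ha i))
    nlinarith [gpos i]
  set K : ℝ := lam + 2 * C ^ 2 * lam ^ 2 with hK
  have hK0 : 0 ≤ K := by positivity
  set o : ℕ → ℝ := fun i => if occ ξ i = true then 1 else 0 with ho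
  have o0 : ∀ i, 0 ≤ o i := by intro i; simp only [ho]; split_ifs <;> norm_num
  have o1 : ∀ i, o i ≤ 1 := by intro i; simp only [ho]; split_ifs <;> norm_num
  have hPhi : lead_Phi g ξ = ∑ i ∈ Finset.range N, o i * g i := by
    unfold lead_Phi
    apply Finset.sum_congr rfl
    intro i _
    simp only [ho]
    split_ifs <;> simp
  rw [stp_open]
  have key : ∑ x ∈ full N, (r x * (lead_Phi g (Rm x ξ) - lead_Phi g ξ) +
      l x * (lead_Phi g (Lm x ξ) - lead_Phi g ξ)) ≤ K * lead_Phi g ξ := by
    have s1 : ∑ x ∈ full N, (r x * (lead_Phi g (Rm x ξ) - lead_Phi g ξ) +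
        l x * (lead_Phi g (Lm x ξ) - lead_Phi g ξ)) ≤
        ∑ x ∈ full N, (g x - g (x - 1)) * (r x * o (x - 1) - l x * o x) := by
      apply Finset.sum_le_sum
      intro x hx
      rw [full, Finset.mem_Ico] at hx
      rw [lead_Rm g ξ hx.1 hx.2, lead_Lm g ξ hx.1 hx.2]
      have m1 : g (x - 1) ≤ g x := by
        have := gmono (x - 1)
        have e : x - 1 + 1 = x := by omega
        rwa [e] at this
      have m2 := hlr x hx.1 hx.2
      have m3 : 0 ≤ (r x - l x) * (g x - g (x - 1)) :=
        mul_nonneg (by linarith) (by linarith)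
      have m4 : 0 ≤ o (x - 1) * o x := mul_nonneg (o0 _) (o0 _)
      have m5 := mul_nonneg m3 m4
      change r x * (o (x - 1) * (1 - o x) * (g x - g (x - 1))) +
        l x * (-((1 - o (x - 1)) * o x * (g x - g (x - 1)))) ≤ _
      nlinarith [m5]
    refine s1.trans ?_
    obtain ⟨M, rfl⟩ : ∃ M, N = M + 1 := ⟨N - 1, by omega⟩
    rw [full, lead_rearr g r l o M, hPhi, Finset.mul_sum]
    apply Finset.sum_le_sum
    intro i hi
    rw [Finset.mem_range] at hi
    have main : ((if i < M then r (i + 1) * (g (i + 1) - g i) else 0) -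
        (if i = 0 then 0 else l i * (g i - g (i - 1)))) ≤ K * g i := by
      -- the left part
      have left : (if i = 0 then 0 else l i * (g i - g (i - 1))) ≥
          (if i = 0 then 0 else l i * (lam * a (i - 1) - (lam * a (i - 1)) ^ 2)) * g i ∧
          (0 : ℝ) ≤ (if i = 0 then 0 else l i * (g i - g (i - 1))) := by
        by_cases h : i = 0
        · simp [h]
        · rw [if_neg h, if_neg h]
          have e : i - 1 + 1 = i := by omega
          have g1 := gs' (i - 1)
          rw [e] at g1
          have b := hy (i - 1) (by omega)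
          have b1 := hA i (by omega) hi
          have t0 : 0 ≤ lam * a (i - 1) := mul_nonneg hlam (ha _)
          have t1 : lam * a (i - 1) ≤ 1 :=
            (mul_le_mul_of_nonneg_left b.1 hlam).trans hlC
          have t2 := lead_exp2 t0 t1
          have e2 : g i - g (i - 1) = (1 - Real.exp (-(lam * a (i - 1)))) * g i := by
            rw [g1]; ring
          rw [e2]
          constructor
          · rw [mul_assoc]
            apply mul_le_mul_of_nonneg_left _ b1.2.2.1
            exact mul_le_mul_of_nonneg_right t2 (gpos i).le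
          · apply mul_nonneg b1.2.2.1
            apply mul_nonneg _ (gpos i).le
            have : Real.exp (-(lam * a (i - 1))) ≤ 1 := Real.exp_le_one_iff.2 (by linarith)
            linarith
      by_cases h : i < M
      · rw [if_pos h]
        have b := hy i (by omega)
        have b1 := hA (i + 1) (by omega) (by omega)
        have t0 : 0 ≤ lam * a i := mul_nonneg hlam (ha _)
        have t1 : lam * a i ≤ 1 :=
          (mul_le_mul_of_nonneg_left b.1 hlam).trans hlC
        have t2 := lead_exp1 t0 t1
        have e2 : g (i + 1) - g i = (Real.exp (lam * a i) - 1) * g i := by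
          rw [gs]; ring
        rw [e2]
        have r1 : r (i + 1) * ((Real.exp (lam * a i) - 1) * g i) ≤
            r (i + 1) * ((lam * a i + (lam * a i) ^ 2) * g i) := by
          apply mul_le_mul_of_nonneg_left _ b1.1.le
          exact mul_le_mul_of_nonneg_right t2 (gpos i).le
        have c1 : r (i + 1) * (a i) ^ 2 ≤ C ^ 2 := by
          have : (a i) ^ 2 ≤ C ^ 2 := pow_le_pow_left₀ (ha i) b.1 2
          calc r (i + 1) * (a i) ^ 2 ≤ 1 * (a i) ^ 2 :=
                mul_le_mul_of_nonneg_right b1.2.1 (by positivity)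
            _ ≤ C ^ 2 := by rw [one_mul]; exact this
        have c2 : (if i = 0 then 0 else l i * (lam * a (i - 1) - (lam * a (i - 1)) ^ 2)) ≥
            lam * (if i = 0 then 0 else l i * a (i - 1)) - C ^ 2 * lam ^ 2 := by
          by_cases h0 : i = 0
          · simp [h0]; positivity
          · rw [if_neg h0, if_neg h0]
            have d := hy (i - 1) (by omega)
            have d1 := hA i (by omega) hi
            have : l i * (a (i - 1)) ^ 2 ≤ C ^ 2 := by
              have : (a (i - 1)) ^ 2 ≤ C ^ 2 := pow_le_pow_left₀ (ha _) d.1 2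
              calc l i * (a (i - 1)) ^ 2 ≤ 1 * (a (i - 1)) ^ 2 :=
                    mul_le_mul_of_nonneg_right d1.2.2.2 (by positivity)
                _ ≤ C ^ 2 := by rw [one_mul]; exact this
            have := mul_le_mul_of_nonneg_right this (sq_nonneg lam)
            nlinarith [this]
        have c3 := mul_le_mul_of_nonneg_right c1 (sq_nonneg lam)
        have c4 : r (i + 1) * (lam * a i + (lam * a i) ^ 2) -
            (if i = 0 then 0 else l i * (lam * a (i - 1) - (lam * a (i - 1)) ^ 2)) ≤ K := by
          have e3 : r (i + 1) * (lam * a i + (lam * a i) ^ 2) =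
              lam * (r (i + 1) * a i) + r (i + 1) * (a i) ^ 2 * lam ^ 2 := by ring
          rw [e3, b.2, hK]
          linarith
        have c5 := mul_le_mul_of_nonneg_right c4 (gpos i).le
        have c6 := left.1
        rw [sub_mul] at c5
        linarith
      · rw [if_neg h]
        have := left.2
        have := mul_nonneg hK0 (gpos i).le
        linarith
    have := mul_le_mul_of_nonneg_left main (o0 i)
    calc _ ≤ o i * (K * g i) := this
      _ = K * (o i * g i) := by ring
  have hNpos : (0 : ℝ) < 2 * N := by positivity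
  have := div_le_div_of_nonneg_right key hNpos.le
  calc _ ≤ lead_Phi g ξ + K * lead_Phi g ξ / (2 * N) := by linarith
    _ = (1 + K / (2 * N)) * lead_Phi g ξ := by ring

/-- iteration -/
theorem lead_iter {r l : ℕ → ℝ} (hA : Adm N r l) (F : Cfg N → ℝ) (u : ℝ) (hu : 0 ≤ u)
    (hF : ∀ ξ, stp r l (full N) F ξ ≤ (1 + u) * F ξ) (m : ℕ) (η : Cfg N) :
    ev r l (fun _ => full N) m F η ≤ (1 + u) ^ m * F η := by
  induction m generalizing η with
  | zero => simp
  | succ m ih =>
    rw [ev_succ]
    have h1 : stp r l (full N) (ev r l (fun _ => full N) m F) η ≤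
        stp r l (full N) (fun ξ => (1 + u) ^ m * F ξ) η := stp_mono hA (fun ξ => ih ξ) η
    refine h1.trans ?_
    rw [stp_smul, pow_succ, mul_assoc]
    exact mul_le_mul_of_nonneg_left (hF η) (by positivity)

theorem st_LEAD : ST_LEAD := by
  intro N r l a lam C z z' m n η hA hlr ha hy hlam hlC hC hzz hz' hn hz
  have hN : 1 ≤ N := by omega
  set g : ℕ → ℝ := fun i => Real.exp (lam * ∑ y ∈ Finset.range i, a y) with hg
  have gpos : ∀ i, 0 < g i := fun i => Real.exp_pos _
  have gmono : Monotone g := by
    intro i j hij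
    simp only [hg]
    apply Real.exp_le_exp.2
    apply mul_le_mul_of_nonneg_left _ hlam
    apply Finset.sum_le_sum_of_subset_of_nonneg
    · exact Finset.range_mono hij
    · intro y _ _; exact ha y
  set K : ℝ := lam + 2 * C ^ 2 * lam ^ 2 with hK
  have hK0 : 0 ≤ K := by positivity
  have hu : 0 ≤ K / (2 * N) := by positivity
  have step := lead_step hN hA hlr ha hy hlam hlC hC
  have it := lead_iter hA (lead_Phi g) (K / (2 * N)) hu step m η
  -- initial value
  have init : lead_Phi g η ≤ n * g z := by
    have e1 : (n : ℝ) * g z = ∑ i ∈ Finset.range N, (if occ η i = true then g z else 0) := by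
      rw [← hn]
      unfold ht
      rw [← Finset.range_eq_Ico]
      push_cast
      rw [Finset.sum_mul]
      apply Finset.sum_congr rfl
      intro i _
      split_ifs <;> simp
    rw [e1]
    unfold lead_Phi
    apply Finset.sum_le_sum
    intro i hi
    rw [Finset.mem_range] at hi
    by_cases h : occ η i = true
    · rw [if_pos h, if_pos h]
      apply gmono
      by_contra hlt
      push Not at hlt
      have h1 := (occ_iff_ht η hi).1 h
      have h2 := ht_anti η hlt.le
      omega
    · rw [if_neg h, if_neg h]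
  -- final value
  have fin : ∀ ξ : Cfg N, ind {ξ : Cfg N | 1 ≤ ht ξ z'} ξ ≤ (g z')⁻¹ * lead_Phi g ξ := by
    intro ξ
    have hP0 : 0 ≤ lead_Phi g ξ := by
      unfold lead_Phi
      apply Finset.sum_nonneg
      intro i _
      split_ifs
      · exact (gpos i).le
      · exact le_rfl
    by_cases h : ξ ∈ {ξ : Cfg N | 1 ≤ ht ξ z'}
    · rw [ind_of_mem h]
      have h1 : 1 ≤ ht ξ z' := h
      have h2 : ∃ i ∈ Finset.Ico z' N, occ ξ i = true := by
        by_contra hcon
        push Not at hcon
        have : ht ξ z' = 0 := by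
          unfold ht
          apply Finset.sum_eq_zero
          intro i hi
          rw [if_neg (by have := hcon i hi; simpa using this)]
        omega
      obtain ⟨i, hi, hi'⟩ := h2
      rw [Finset.mem_Ico] at hi
      have h3 : g i ≤ lead_Phi g ξ := by
        unfold lead_Phi
        have := Finset.single_le_sum (f := fun i => if occ ξ i = true then g i else 0)
          (s := Finset.range N) (fun j _ => by
            split_ifs
            · exact (gpos j).le
            · exact le_rfl) (Finset.mem_range.2 hi.2)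
        simp only [hi', if_true] at this
        exact this
      have h4 : g z' ≤ lead_Phi g ξ := (gmono hi.1).trans h3
      rw [inv_mul_eq_div, le_div_iff₀ (gpos z')]
      linarith
    · rw [ind_of_not_mem h]
      exact mul_nonneg (inv_nonneg.2 (gpos z').le) hP0
  have e1 : pr r l (fun _ => full N) m {ξ | 1 ≤ ht ξ z'} η ≤
      ev r l (fun _ => full N) m (fun ξ => (g z')⁻¹ * lead_Phi g ξ) η :=
    ev_mono hA fin _ m η
  rw [ev_smul] at e1
  refine e1.trans ?_
  have e2 : (1 + K / (2 * N)) ^ m ≤ Real.exp (K * m / (2 * N)) := by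
    have : (1 + K / (2 * N)) ≤ Real.exp (K / (2 * N)) := by
      have := Real.add_one_le_exp (K / (2 * N)); linarith
    calc (1 + K / (2 * N)) ^ m ≤ (Real.exp (K / (2 * N))) ^ m :=
          pow_le_pow_left₀ (by positivity) this m
      _ = Real.exp (K * m / (2 * N)) := by
          rw [← Real.exp_nat_mul]; congr 1; ring
  have e3 : lead_Phi g η * (1 + K / (2 * N)) ^ m ≤ n * g z * Real.exp (K * m / (2 * N)) := by
    apply mul_le_mul init e2 (by positivity)
    have := (gpos z).le
    positivity
  have e4 : g z * (g z')⁻¹ = Real.exp (-(lam * ∑ y ∈ Finset.Ico z z', a y)) := by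
    simp only [hg]
    rw [← Real.exp_neg, ← Real.exp_add]
    congr 1
    rw [Finset.sum_Ico_eq_sub _ hzz]
    ring
  calc (g z')⁻¹ * ev r l (fun _ => full N) m (lead_Phi g) η ≤
        (g z')⁻¹ * ((1 + K / (2 * N)) ^ m * lead_Phi g η) :=
        mul_le_mul_of_nonneg_left it (inv_nonneg.2 (gpos z').le)
    _ = (g z')⁻¹ * (lead_Phi g η * (1 + K / (2 * N)) ^ m) := by ring
    _ ≤ (g z')⁻¹ * (n * g z * Real.exp (K * m / (2 * N))) :=
        mul_le_mul_of_nonneg_left e3 (inv_nonneg.2 (gpos z').le)
    _ = n * ((g z * (g z')⁻¹) * Real.exp (K * m / (2 * N))) := by ring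
    _ = n * Real.exp (K * m / (2 * N) - lam * ∑ y ∈ Finset.Ico z z', a y) := by
        rw [e4, ← Real.exp_add]
        congr 2; ring

end Pool.Agent.Helper98.EX
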